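import Pool.Agent.H59.KY.Iso
import Pool.Agent.H38.KE.KeyEx
import Pool.Agent.H7.KM.Final

/-!
MP_ee0ae9_al: the key of a highest weight element is inverted by the Henriques-Kamnitzer commutor.
All definitions are in `Pool/Agent/H59/KY/Defs.lean`.
-/

set_option autoImplicit false

open scoped Classical

namespace Pool.Agent.Results.MP_ee0ae9_al.KeyInverse

open Pool.Agent.H59.KY

/-- Let `C` be a Cartan matrix of finite type (a complex semisimple Lie algebra). The crystals `B_λ`
(`F : Family C`) exist and are unique up to isomorphism. For all dominant `λ`, `μ`: the highest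
weight elements of `B_λ ⊗ B_μ` are the `b ⊗ b_μ` with `ε_i(b) ≤ μ_i`; the commutor is a well defined
map; Demazure crystals do not depend on the reduced word; every `b` has exactly one key; the
commutor sends a highest weight element `b ⊗ b_μ` to some `c ⊗ b_λ`; and then, for every `w`,
`b ∈ B_w(λ)` iff `c ∈ B_{w⁻¹}(μ)`, and the key of `c` is the inverse of the key of `b`. -/
theorem result (C : Cartan) : Nonempty (Family C) ∧
    (∀ (F F' : Family C) (lam : C.I → ℕ), ∃ g : Mor (F.B lam) (F'.B lam),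
      Function.Bijective g.map ∧ g.map (F.hw lam) = F'.hw lam) ∧
    ∀ (F : Family C) (lam mu : C.I → ℕ),
    (∀ a b, (∀ i, (F.T lam mu).e i (a, b) = none) ↔
      b = F.hw mu ∧ ∀ i, (F.B lam).eps i a ≤ mu i) ∧
    (∀ z : (F.T lam mu).B, ∃! z' : (F.T mu lam).B, F.Commutor lam mu z z') ∧
    (∀ l l' w, C.Reduced l w → C.Reduced l' w → F.Dem lam l = F.Dem lam l') ∧
    (∀ b : (F.B lam).B, ∃! w : C.Aut, F.IsKey lam b w) ∧
    ∀ b : (F.B lam).B, (∀ i, (F.T lam mu).e i (b, F.hw mu) = none) →
      (∃ c : (F.B mu).B, F.Commutor lam mu (b, F.hw mu) (c, F.hw lam)) ∧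
      ∀ c : (F.B mu).B, F.Commutor lam mu (b, F.hw mu) (c, F.hw lam) →
        (∀ w : C.Aut, b ∈ F.DemW lam w ↔ c ∈ F.DemW mu w⁻¹) ∧
        ∃ w ∈ C.W, (∀ v, F.IsKey lam b v ↔ v = w) ∧ (∀ v, F.IsKey mu c v ↔ v = w⁻¹) := by
  refine ⟨Pool.Agent.H7.KM.family_exists C, fun F F' lam => family_unique F F' lam, ?_⟩
  intro F lam mu
  refine ⟨fun a b => tensor_hw F lam mu a b, fun z => Commutor_exists F lam mu z,
    fun l l' w h h' => Dem_indep F lam h h', fun b => existsUnique_key F lam b, ?_⟩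
  intro b hb
  constructor
  · obtain ⟨z', hz', -⟩ := Commutor_exists F lam mu (b, F.hw mu)
    obtain ⟨c, hc, -⟩ := Commutor_hw F lam mu b hb z' hz'
    subst hc
    exact ⟨c, hz'⟩
  · intro c hc
    obtain ⟨c', hc', hT⟩ := Commutor_hw F lam mu b hb _ hc
    have h1 : c = c' := congrArg Prod.fst hc'
    subst h1
    exact ⟨fun w => DemW_iff F hT w, key_inverse F hT⟩

end Pool.Agent.Results.MP_ee0ae9_al.KeyInverse
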